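import Pool.Agent.W747.MB.Defs
import Pool.Agent.H749R2.Hyp2

/-! Subtask MB-ALV (owner helper747): bounds on the Multibrot set. -/

set_option autoImplicit false
open Metric MeasureTheory Set

namespace Pool.Agent.W216.MB.ALV

open Pool.Agent.W747.MB

theorem iter_eq (n : ℕ) (hn : 2 ≤ n) (c : ℂ) (j : ℕ) :
    (Pool.Agent.H749R2.Hyp.f n c)^[j + 1] 0 = c * A n c j := by
  have hn0 : (n : ℂ) ≠ 0 := by
    have : n ≠ 0 := by omega
    exact_mod_cast this
  induction j with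
  | zero =>
    simp [Pool.Agent.H749R2.Hyp.f, A, X, zero_pow (by omega : n ≠ 0)]
  | succ j ih =>
    rw [Function.iterate_succ_apply', ih]
    have h1 : c ^ n = c * c ^ (n - 1) := by
      rw [← pow_succ']
      congr 1
      omega
    have h2 : A n c (j + 1) = 1 + c ^ (n - 1) * A n c j ^ n := by
      have : X n c (j + 1) = n * c ^ (n - 1) * A n c j ^ n := rfl
      rw [A, this]
      field_simp
    rw [h2, Pool.Agent.H749R2.Hyp.f, mul_pow, h1]
    ring

theorem pow_big (n : ℕ) (hn : 20 ≤ n) : 6 * (n : ℝ) ≤ (3 / 2 : ℝ) ^ (n - 1) := by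
  induction n, hn using Nat.le_induction with
  | base => norm_num
  | succ n hn ih =>
    have h1 : (3 / 2 : ℝ) ^ (n + 1 - 1) = (3 / 2) * (3 / 2) ^ (n - 1) := by
      rw [← pow_succ']
      congr 1
      omega
    have hn' : (20 : ℝ) ≤ n := by exact_mod_cast hn
    rw [h1]
    push_cast
    nlinarith

theorem main : P_ALV := by
  intro n hn c hc
  have hn2 : 2 ≤ n := le_trans (by norm_num) hn
  have hn20 : 20 ≤ n := le_trans (by norm_num) hn
  have hnR : (0 : ℝ) < n := by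
    have : 0 < n := by omega
    exact_mod_cast this
  obtain ⟨hcM, hcH⟩ := hc
  have hY1 : 1 / 3 ≤ Y n c := by
    by_contra hcon
    push Not at hcon
    apply hcH
    obtain ⟨z, hz⟩ := Pool.Agent.H749R2.Hyp.P1 hn2 (c := c) (by
      have h1 : (n : ℝ) * ‖c‖ ^ (n - 1) < 1 / 3 := hcon
      have h2 : Real.exp 1 < 3 := by
        have := Real.exp_one_lt_d9
        linarith
      have h3 : (0 : ℝ) ≤ n * ‖c‖ ^ (n - 1) := by positivity
      nlinarith [Real.exp_pos 1])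
    exact ⟨1, z, hz⟩
  have ht := Pool.Agent.H749R2.Hyp.t_le_two hn2 hcM
  have hY2 : Y n c ≤ 2 * n := by
    unfold Y
    nlinarith
  refine ⟨hY1, hY2, ?_⟩
  have hz : ∀ j, ‖c * A n c j‖ ^ (n - 1) ≤ 2 := by
    intro j
    by_contra hcon
    push Not at hcon
    rcases le_or_gt ‖c‖ ‖c * A n c j‖ with h1 | h1
    · exact Pool.Agent.H749R2.Hyp.not_mem_of_gt hn2 (iter_eq n hn2 c j) h1 hcon hcM
    · have h2 : ‖c * A n c j‖ ^ (n - 1) ≤ ‖c‖ ^ (n - 1) :=
        pow_le_pow_left₀ (norm_nonneg _) h1.le _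
      linarith
  have hA : ∀ j, ‖A n c j‖ ≤ 3 / 2 := by
    intro j
    by_contra hcon
    push Not at hcon
    have h1 : (3 / 2 : ℝ) ^ (n - 1) < ‖A n c j‖ ^ (n - 1) :=
      pow_lt_pow_left₀ hcon (by norm_num) (by omega)
    have h2 := pow_big n hn20
    have h3 := hz j
    rw [norm_mul, mul_pow] at h3
    have h4 : (1 : ℝ) / 3 ≤ n * ‖c‖ ^ (n - 1) := hY1
    have h5 : 0 ≤ ‖A n c j‖ ^ (n - 1) := by positivity
    have h6 : 1 / 3 * ‖A n c j‖ ^ (n - 1) ≤ n * ‖c‖ ^ (n - 1) * ‖A n c j‖ ^ (n - 1) :=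
      mul_le_mul_of_nonneg_right h4 h5
    have h7 : (n : ℝ) * (‖c‖ ^ (n - 1) * ‖A n c j‖ ^ (n - 1)) ≤ n * 2 :=
      mul_le_mul_of_nonneg_left h3 hnR.le
    linarith
  intro j
  cases j with
  | zero =>
    simp [X]
  | succ j =>
    have h1 : X n c (j + 1) = n * c ^ (n - 1) * A n c j ^ n := rfl
    have h2 : ‖X n c (j + 1)‖ = n * ‖c * A n c j‖ ^ (n - 1) * ‖A n c j‖ := by
      rw [h1, norm_mul, norm_mul, norm_pow, norm_pow, Complex.norm_natCast, norm_mul, mul_pow]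
      have : ‖A n c j‖ ^ n = ‖A n c j‖ ^ (n - 1) * ‖A n c j‖ := by
        rw [← pow_succ]
        congr 1
        omega
      rw [this]
      ring
    rw [h2]
    have h3 := hz j
    have h4 := hA j
    calc (n : ℝ) * ‖c * A n c j‖ ^ (n - 1) * ‖A n c j‖ ≤ n * 2 * (3 / 2) := by gcongr
      _ = 3 * n := by ring

end Pool.Agent.W216.MB.ALV
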