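import Pool.Agent.W747.MB.Defs

/-! Subtask MB-ANN (owner helper747): the area of an annulus. -/

set_option autoImplicit false
open Metric MeasureTheory Set

namespace Pool.Agent.W216.MB.ANN

open Pool.Agent.W747.MB

theorem main : P_ANN := by
  intro n hn α β hα hαβ hβ
  have hn' : (2 : ℝ) ≤ n := by exact_mod_cast hn
  have hn1 : (0 : ℝ) < (n : ℝ) - 1 := by linarith
  have hn0 : (0 : ℝ) < n := by linarith
  have hcast : ((n - 1 : ℕ) : ℝ) = (n : ℝ) - 1 := by
    rw [Nat.cast_sub (by omega), Nat.cast_one]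
  have hβ0 : 0 < β := lt_of_lt_of_le hα hαβ
  set e : ℝ := 1 / ((n : ℝ) - 1) with he
  have he0 : 0 < e := by positivity
  have he1 : e ≤ 1 := by
    rw [he, div_le_one hn1]
    linarith
  set R : ℝ := (β / n) ^ e with hR
  set r : ℝ := (α / n) ^ e with hr
  have hR0 : 0 < R := Real.rpow_pos_of_pos (by positivity) _
  have hr0 : 0 < r := Real.rpow_pos_of_pos (by positivity) _
  have hRpow : R ^ (n - 1) = β / n := by
    rw [hR, ← Real.rpow_natCast, ← Real.rpow_mul (by positivity), hcast, he,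
      one_div_mul_cancel hn1.ne', Real.rpow_one]
  have hrpow : r ^ (n - 1) = α / n := by
    rw [hr, ← Real.rpow_natCast, ← Real.rpow_mul (by positivity), hcast, he,
      one_div_mul_cancel hn1.ne', Real.rpow_one]
  have hrR : r ≤ R := by
    rw [hr, hR]
    apply Real.rpow_le_rpow (by positivity) _ he0.le
    exact div_le_div_of_nonneg_right hαβ hn0.le
  have hR12 : R ≤ 12 := by
    have h1 : β / n ≤ 12 := by
      rw [div_le_iff₀ hn0]
      exact hβ
    calc R ≤ (12 : ℝ) ^ e := Real.rpow_le_rpow (by positivity) h1 he0.le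
      _ ≤ (12 : ℝ) ^ (1 : ℝ) := Real.rpow_le_rpow_of_exponent_le (by norm_num) he1
      _ = 12 := Real.rpow_one _
  have hsub : {c : ℂ | α ≤ Y n c ∧ Y n c ≤ β} ⊆ closedBall 0 R \ ball 0 r := by
    rintro c ⟨h1, h2⟩
    unfold Y at h1 h2
    have h3 : α / n ≤ ‖c‖ ^ (n - 1) := by
      rw [div_le_iff₀ hn0]
      linarith
    have h4 : ‖c‖ ^ (n - 1) ≤ β / n := by
      rw [le_div_iff₀ hn0]
      linarith
    refine ⟨?_, ?_⟩
    · rw [mem_closedBall, dist_zero_right]
      rw [← hRpow] at h4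
      exact le_of_pow_le_pow_left₀ (by omega) hR0.le h4
    · rw [mem_ball, dist_zero_right, not_lt]
      rw [← hrpow] at h3
      exact le_of_pow_le_pow_left₀ (by omega) (norm_nonneg _) h3
  refine (measure_mono hsub).trans ?_
  have hbsub : ball (0 : ℂ) r ⊆ closedBall 0 R :=
    ball_subset_closedBall.trans (closedBall_subset_closedBall hrR)
  rw [measure_diff hbsub measurableSet_ball.nullMeasurableSet measure_ball_lt_top.ne,
    Complex.volume_closedBall, Complex.volume_ball]
  have hpi : ((NNReal.pi : NNReal) : ENNReal) = ENNReal.ofReal Real.pi := by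
    rw [← NNReal.coe_real_pi, ENNReal.ofReal_coe_nnreal]
  rw [hpi, ← ENNReal.ofReal_pow hR0.le, ← ENNReal.ofReal_pow hr0.le,
    ← ENNReal.ofReal_mul (by positivity), ← ENNReal.ofReal_mul (by positivity),
    ← ENNReal.ofReal_sub _ (by positivity)]
  apply ENNReal.ofReal_le_ofReal
  -- the real inequality
  set ℓ : ℝ := Real.log (β / α) with hℓ
  have hℓ0 : 0 ≤ ℓ := Real.log_nonneg (by rw [le_div_iff₀ hα]; linarith)
  have hratio : r / R = Real.exp (-(e * ℓ)) := by
    rw [hr, hR, ← Real.div_rpow (by positivity) (by positivity)]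
    have h1 : α / n / (β / n) = α / β := by field_simp
    rw [h1, Real.rpow_def_of_pos (by positivity)]
    congr 1
    rw [hℓ, Real.log_div hα.ne' hβ0.ne', Real.log_div hβ0.ne' hα.ne']
    ring
  have hr2 : R ^ 2 - r ^ 2 ≤ R ^ 2 * (2 * e * ℓ) := by
    have h1 : r = R * Real.exp (-(e * ℓ)) := by
      rw [← hratio]
      field_simp
    have h2 : r ^ 2 = R ^ 2 * Real.exp (-(2 * e * ℓ)) := by
      rw [h1, mul_pow, ← Real.exp_nat_mul]
      congr 2
      push_cast
      ring
    have h3 := Real.add_one_le_exp (-(2 * e * ℓ))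
    rw [h2]
    nlinarith [sq_nonneg R]
  have hR2 : R ^ 2 ≤ 144 := by nlinarith
  have he2 : e ≤ 2 / n := by
    rw [he, div_le_div_iff₀ hn1 hn0]
    linarith
  have hpi3 : Real.pi ≤ 3.15 := Real.pi_lt_d2.le
  have h5 : 2 * e * ℓ ≤ 4 * ℓ / n := by
    calc 2 * e * ℓ ≤ 2 * (2 / n) * ℓ := by gcongr
      _ = 4 * ℓ / n := by ring
  have h6 : 0 ≤ 4 * ℓ / n := by positivity
  calc R ^ 2 * Real.pi - r ^ 2 * Real.pi = (R ^ 2 - r ^ 2) * Real.pi := by ring
    _ ≤ (R ^ 2 * (2 * e * ℓ)) * Real.pi := mul_le_mul_of_nonneg_right hr2 Real.pi_pos.le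
    _ ≤ (144 * (4 * ℓ / n)) * 3.15 := by
        apply mul_le_mul _ hpi3 Real.pi_pos.le (by positivity)
        exact mul_le_mul hR2 h5 (by positivity) (by norm_num)
    _ ≤ 2000 * ℓ / n := by
        rw [← mul_div_assoc, div_mul_eq_mul_div]
        apply div_le_div_of_nonneg_right _ hn0.le
        nlinarith

end Pool.Agent.W216.MB.ANN
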