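import Pool.Agent.W747.MB.Defs
import Pool.Agent.H749R2.Hyp2

/-! Subtask MB-BAS (owner helper747): the configuration of level one. -/

set_option autoImplicit false
open Metric MeasureTheory Set

namespace Pool.Agent.W216.MB.BAS

open Pool.Agent.W747.MB

theorem X1 (n : ℕ) (c : ℂ) : X n c 1 = n * c ^ (n - 1) := by
  simp [X]

theorem L1 (n : ℕ) (c : ℂ) : L n c 1 = (n - 1) / c := by
  simp [X, L]

theorem M1 (n : ℕ) (c : ℂ) : M n c 1 = -((n - 1) / c ^ 2) := by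
  simp [X, L, M]

theorem nm1 {n : ℕ} (hn : 2 ≤ n) : ‖((n : ℂ) - 1)‖ = (n : ℝ) - 1 := by
  have h1 : ((n : ℂ) - 1) = (((n : ℝ) - 1 : ℝ) : ℂ) := by push_cast; ring
  have hn' : (2 : ℝ) ≤ n := by exact_mod_cast hn
  rw [h1, Complex.norm_real, Real.norm_eq_abs, abs_of_nonneg (by linarith)]

theorem main : P_BAS := by
  intro n hn c₀ hY
  have hn' : (2 : ℝ) ≤ n := by exact_mod_cast hn
  have hn1 : (0 : ℝ) < (n : ℝ) - 1 := by linarith
  have hc₀ : c₀ ≠ 0 := by
    rintro rfl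
    unfold Y at hY
    rw [norm_zero, zero_pow (by omega)] at hY
    norm_num at hY
  have hc₀n : 0 < ‖c₀‖ := norm_pos_iff.2 hc₀
  have hX : ‖X n c₀ 1‖ = Y n c₀ := by
    rw [X1, norm_mul, norm_pow, Complex.norm_natCast]
    rfl
  have hLn : ∀ c, ‖L n c 1‖ = ((n : ℝ) - 1) / ‖c‖ := by
    intro c
    rw [L1, norm_div, nm1 hn]
  have hrad : 1 / (100 * ‖L n c₀ 1‖) = ‖c₀‖ * (1 / (100 * ((n : ℝ) - 1))) := by
    rw [hLn]
    field_simp
  have hDD : ∀ c ∈ DD n c₀ 1, ‖c - c₀‖ ≤ ‖c₀‖ * (1 / (100 * ((n : ℝ) - 1))) := by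
    intro c hc
    unfold DD at hc
    rw [mem_closedBall, dist_eq_norm, hrad] at hc
    exact hc
  have hsm : 1 / (100 * ((n : ℝ) - 1)) ≤ 1 / 100 := by
    apply one_div_le_one_div_of_le (by norm_num)
    linarith
  have hc0 : ∀ c ∈ DD n c₀ 1, c ≠ 0 := by
    intro c hc h0
    have h1 := hDD c hc
    rw [h0, zero_sub, norm_neg] at h1
    nlinarith
  have hup : ∀ c ∈ DD n c₀ 1, ‖c‖ ≤ ‖c₀‖ * (1 + 1 / (100 * ((n : ℝ) - 1))) := by
    intro c hc
    have h1 := hDD c hc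
    have h2 : ‖c‖ ≤ ‖c₀‖ + ‖c - c₀‖ := by
      calc ‖c‖ = ‖c₀ + (c - c₀)‖ := by congr 1; ring
        _ ≤ _ := norm_add_le _ _
    linarith
  have hcast : ((n - 1 : ℕ) : ℝ) = (n : ℝ) - 1 := by
    rw [Nat.cast_sub (by omega), Nat.cast_one]
  have hYc : ∀ c ∈ DD n c₀ 1, Y n c ≤ Y n c₀ * Real.exp (1 / 100) := by
    intro c hc
    unfold Y
    have h1 : ‖c‖ ^ (n - 1) ≤ ‖c₀‖ ^ (n - 1) * Real.exp (1 / 100) := by
      calc ‖c‖ ^ (n - 1) ≤ (‖c₀‖ * (1 + 1 / (100 * ((n : ℝ) - 1)))) ^ (n - 1) :=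
            pow_le_pow_left₀ (norm_nonneg _) (hup c hc) _
        _ = ‖c₀‖ ^ (n - 1) * (1 + 1 / (100 * ((n : ℝ) - 1))) ^ (n - 1) := mul_pow _ _ _
        _ ≤ ‖c₀‖ ^ (n - 1) * Real.exp (1 / 100) := by
            apply mul_le_mul_of_nonneg_left _ (by positivity)
            have h2 : 1 + 1 / (100 * ((n : ℝ) - 1)) ≤ Real.exp (1 / (100 * ((n : ℝ) - 1))) := by
              have := Real.add_one_le_exp (1 / (100 * ((n : ℝ) - 1)))
              linarith
            calc (1 + 1 / (100 * ((n : ℝ) - 1))) ^ (n - 1)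
                ≤ (Real.exp (1 / (100 * ((n : ℝ) - 1)))) ^ (n - 1) :=
                  pow_le_pow_left₀ (by positivity) h2 _
              _ = Real.exp (1 / 100) := by
                  rw [← Real.exp_nat_mul, hcast]
                  congr 1
                  field_simp
    calc (n : ℝ) * ‖c‖ ^ (n - 1) ≤ n * (‖c₀‖ ^ (n - 1) * Real.exp (1 / 100)) :=
          mul_le_mul_of_nonneg_left h1 (by linarith)
      _ = n * ‖c₀‖ ^ (n - 1) * Real.exp (1 / 100) := by ring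
  refine ⟨⟨⟨le_refl 1, ?_, ?_, ?_, ?_⟩, by linarith, ?_⟩, L1 n c₀, hX⟩
  · rw [L1]
    apply div_ne_zero _ hc₀
    rw [← norm_pos_iff, nm1 hn]
    exact hn1
  · intro c hc
    refine ⟨hc0 c hc, fun i hi => ?_⟩
    obtain rfl : i = 0 := by omega
    simp [A, X]
  · intro c _
    rw [hLn]
  · intro c hc
    have hcn : 0 < ‖c‖ := norm_pos_iff.2 (hc0 c hc)
    rw [M1, hLn, norm_neg, norm_div, norm_pow, nm1 hn, div_pow]
    apply div_le_div_of_nonneg_right _ (by positivity)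
    nlinarith
  · intro c hc z hz
    set D : ℝ := 2 * Y n c₀ with hD
    have hD2 : 2 ≤ D := by linarith
    have hder : deriv (f n c)^[1] z = n * z ^ (n - 1) := by
      rw [Function.iterate_one]
      exact (Pool.Agent.H749R2.Hyp.hasDerivAt_f n c z).deriv
    rw [hder, norm_mul, norm_pow, Complex.norm_natCast]
    have h1 : ‖z‖ ≤ ‖c‖ * (1 + (1 / 20) / n) := by
      have h2 : ‖z‖ ≤ ‖c‖ + ‖z - c‖ := by
        calc ‖z‖ = ‖c + (z - c)‖ := by congr 1; ring
          _ ≤ _ := norm_add_le _ _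
      have h3 : ‖c‖ / (10 * n * D) ≤ ‖c‖ * ((1 / 20) / n) := by
        rw [div_eq_mul_one_div]
        apply mul_le_mul_of_nonneg_left _ (norm_nonneg _)
        rw [div_div]
        apply one_div_le_one_div_of_le (by positivity)
        nlinarith
      linarith
    have h4 : ‖z‖ ^ (n - 1) ≤ ‖c‖ ^ (n - 1) * Real.exp (1 / 20) := by
      calc ‖z‖ ^ (n - 1) ≤ (‖c‖ * (1 + (1 / 20) / n)) ^ (n - 1) :=
            pow_le_pow_left₀ (norm_nonneg _) h1 _
        _ = ‖c‖ ^ (n - 1) * (1 + (1 / 20) / n) ^ (n - 1) := mul_pow _ _ _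
        _ ≤ ‖c‖ ^ (n - 1) * Real.exp (1 / 20) := by
            apply mul_le_mul_of_nonneg_left _ (by positivity)
            exact Pool.Agent.H749R2.Hyp.one_add_div_pow_le (by omega) (by norm_num) (by omega)
    have h5 : Real.exp (1 / 100) * Real.exp (1 / 20) ≤ 2 := by
      rw [← Real.exp_add]
      have h6 : (1 : ℝ) / 100 + 1 / 20 ≤ Real.log 2 := by
        have := Real.log_two_gt_d9
        linarith
      calc Real.exp (1 / 100 + 1 / 20) ≤ Real.exp (Real.log 2) := Real.exp_le_exp.2 h6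
        _ = 2 := Real.exp_log (by norm_num)
    have h7 := hYc c hc
    have hY0 : 0 ≤ Y n c₀ := by linarith
    calc (n : ℝ) * ‖z‖ ^ (n - 1) ≤ n * (‖c‖ ^ (n - 1) * Real.exp (1 / 20)) :=
          mul_le_mul_of_nonneg_left h4 (by linarith)
      _ = Y n c * Real.exp (1 / 20) := by unfold Y; ring
      _ ≤ (Y n c₀ * Real.exp (1 / 100)) * Real.exp (1 / 20) :=
          mul_le_mul_of_nonneg_right h7 (Real.exp_pos _).le
      _ = Y n c₀ * (Real.exp (1 / 100) * Real.exp (1 / 20)) := by ring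
      _ ≤ Y n c₀ * 2 := mul_le_mul_of_nonneg_left h5 hY0
      _ = D := by rw [hD]; ring

end Pool.Agent.W216.MB.BAS
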